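import Pool.Agent.U184.Cone2

set_option autoImplicit false

/-! # The strong monodromy conjecture for germs which are iterated cones with a period

We consider the smallest class of germs `g ∈ ℂ[[x_1, ..., x_N]]` (`ConeGerm2`) with the following two
properties.

* It contains the germs which become, in suitable formal coordinates and up to a unit, polynomials of
  the class `𝓢` (`SusZeta`): the iterated suspensions `z ^ k + F`, and powers `F ^ k`, starting from the
  polynomials `h(x_1, x_2) (f_0(x_1, x_2) + ∑_j w_j f_j(x_1, x_2)) ^ a`. In particular it contains
  the smooth germs and the reduced germs of corank at most two.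
* It contains `g` if `g` becomes, in suitable formal coordinates and up to a unit,
  `G = h(x) ∏_t (∑_j y_{t,j} f_{t,j}(x)) ^ a_t`, where `h` and the `f_{t,j}` are forms in
  `x = (x_0, ..., x_n)`, and if the germs of `G` at the points `(q, 0)`, `q ≠ 0`, are in the class.

The `e`-th twisted local topological zeta functions of these germs (`e = 1` is the usual one) are
computed by blowing up the space `x = 0`, see `ConeGerm2`. The exceptional divisor has the multiplicity
`N = d`, the degree of `G` in `x`, and `ν = n + 1`. Let `L` be the linear system spanned by the
generators `F_J = h ∏_t ∏_{i < a_t} f_{t, J(t, i)}` of the ideal `h ∏_t (f_{t,j})_j ^ a_t`. We show that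
`-(n + 1) / d` is a root of the Bernstein-Sato polynomial of `G` (`cone_root`) if one of the following
conditions (`ConeCond`) holds. (For the condition `ConeData.Cond` of the library, that is, if `n + 1` of
the `F_J` have a nonzero Jacobian determinant, or `n = 2` and `RootCond`, this is in `ConeGerms`,
MP_aa7fc1_ag. The other conditions are new here.)

* There are integers `m, k ≥ 1` and a form `g` with `g ^ k ∈ L ^ m`, such that the class of
  `dx_0 ∧ ... ∧ dx_n` in the cohomology group `H ^ (n+1)` of the complex `(Ω, d - dg ∧)` of polynomial
  differential forms is not zero (`HasPeriod`; this group is isomorphic to the reduced cohomology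
  group `H ^ n` of the fibre `g = 1`). For instance, the hypersurface `g = 0` in `ℙ^n` is smooth, of
  degree at least `2` (`period_of_iso`), or `g` is positive on `ℝ ^ (n+1)` without the origin, in
  suitable linear coordinates (`period_of_pos_mat`; the class is detected by the integral of
  `exp (-g) dx` over the real space), or `g` is the product of the variables, or a sum of such forms in
  separate variables (`period_prod`, `period_sum`).
* In suitable linear coordinates `h` and the `f_{t,j}` are real, `h` has no real zero, and for each `t`
  the `f_{t,j}` have no common real zero, except the origin (`RealCone`). Here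
  `h ^ 2 ∏_t (∑_j f_{t,j} ^ 2) ^ a_t` is a positive form in `L ^ 2`. Nothing is assumed about the complex
  base points.
* `h` is constant, there is only one factor, and the `f_j` are of the same degree `≥ 2` and define a
  smooth complete intersection in `ℙ^n` (`CICone`). By Bertini's theorem (`bert_exists`) there is a
  smooth member.
* `n = 2`, and `L` has a non-resonant member (`NRMember`): for some form `G'` of degree `m ≥ 1`,
  `g = G'(F)` defines a plane curve (with arbitrary multiplicities) with only weighted homogeneous
  singularities, `3 ν / (d m)` is not an integer for the weighted degree `ν` of `g` at any of them, and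
  no linear vector field `v` of trace zero satisfies `v(g) = g`.

The rational map from `ℙ^n` given by `L` can have fibres of positive dimension; in the opposite case
`n + 1` of the `F_J` are algebraically independent, and the Jacobian criterion applies.

The theorem: every pole `s₀` of the zeta function is a root of the local (formal) Bernstein-Sato
polynomial `b` of `g`, provided that for each cone which occurs either `s₀ ≠ -(n + 1) / d`, or
`ConeCond` holds.

Proof of the root `-(n + 1) / d`: a functional equation of `G` gives, after division by
`∏_t ∏_{i ≤ a_t} (a_t s + i)`, a functional equation of the ideal `(F_J)` (`functionalEq_strong`). Let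
`α = -(n + 1) / d` and suppose that it is not a root. The functional equation gives polynomials `V_l` in
`x` and variables `z_J` with `c Q ^ α = ∑_l ∂_{x_l} (V_l Q ^ (α - N))` for `Q = ∑ z_J F_J` and a constant
`c ≠ 0` (`stmAI`). If `Φ(z)` is any homogeneous function of degree `α`, then the transformation
`z ^ J Q ^ (α - |J|) ↦ (∂ ^ J Φ)(F)` is compatible with the derivations `∂_{x_l}`. For
`Φ = G' ^ (α / m)` with `G'(F) = g ^ k` this gives `c' g ^ (k α / m) = ∑_l ∂_{x_l} (W_l g ^ (k (α / m - N)))`
with a constant `c' ≠ 0` (`mel`). A functional `Λ` with `Λ(∂_l q) = Λ(∂_l g q)` and `Λ(1) = 1` takes this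
to `c' Λ(g ^ N') = 0` for some `N'`, but `Λ(g ^ N') ≠ 0` by Euler's relation (`per_core`). For the plane
curves see `TernarySystems`.
-/

namespace Pool.Agent.Results.MP_6163c8_ag.PeriodCones

open Pool.Agent.N127.TW Pool.Agent.U184
open Pool.Agent.Y229.PS (IsFormalBFunction)

/-- **The strong monodromy conjecture for iterated cones (local form).** Let `g` be a germ with the
local topological zeta function `Z` (`ConeGerm2`, with `e = 1`), and
let `b` satisfy a functional equation `b(s) g ^ s = P(s) g ^ (s + 1)`, where `P` is a differential
operator with formal power series coefficients. Then each pole `s₀` of `Z` is a root of `b`, if the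
conditions in `ConeGerm2` are satisfied for `s₀`: for each cone which occurs, `s₀ ≠ -(n + 1) / d` or
`ConeCond`. -/
theorem result {N : ℕ} (g : MvPowerSeries (Fin N) ℂ) (b : Polynomial ℂ)
    (hb : IsFormalBFunction g b) (s₀ : ℂ) (Z : RatFunc ℂ)
    (hZ : ConeGerm2 1 s₀ g Z) (hs₀ : Z.denom.eval s₀ = 0) : b.eval s₀ = 0 := by
  by_contra hne
  exact Pool.Agent.W574.SM.Reg_denom s₀ _ (hZ.reg le_rfl hne hb) hs₀

end Pool.Agent.Results.MP_6163c8_ag.PeriodCones
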