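import Pool.Agent.U841.SC.Top2
import Pool.Agent.U841.SC.Pt

set_option autoImplicit false

/-! # Poles of local topological zeta functions and local Bernstein-Sato roots: germs resolved by the
blow-up of smooth centres

Let `f t`, `t ∈ T`, be finitely many squarefree polynomials in `n` variables without common factors, let
`a t ≥ 1`, and let `F = ∏ t, f t ^ a t`. Let `q` be a point, and let `Z_i`, `i ∈ I`, be finitely many smooth
centres of codimensions `ν i ≥ 2` near `q` such that the fibre of the projectivized normal cone of
`F = 0` along `Z_i` over a point near `q` is a simple normal crossing divisor of the projective space
`ℙ^(c-1)`, `c = ν i`, with arbitrary multiplicities, and not just at most `c` hyperplanes; let `N i` be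
the multiplicity of `F` along `Z_i` (`CentreNear F q (ν i) (N i)`: for every Zariski neighbourhood of
`q` there is such a centre, given by formal coordinates at a point of the neighbourhood).

This covers all germs of `F` at `q` which are resolved near `q` by the blow-up of a smooth subvariety
`Z = ⊔ Z_i` (with components `Z_i` through `q`, for example `Z = {q}`), unless the hypersurfaces
`f t = 0` already cross normally at the general point of some `Z_i`. For then the exceptional divisor
`E_i` over `Z_i` and the strict transforms of the hypersurfaces form a simple normal crossing
divisor, so by generic smoothness the strict transforms meet the fibre `ℙ^(c-1)` of `E_i` over a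
general point of `Z_i` in smooth hypersurfaces which cross normally; and these are the components of
the projectivized normal cone. The numbers of `E_i` are `ν = c` and `N`; those of the strict transform
of `f t = 0` are `1` and `a t`. The singularities of `F` are in general neither isolated nor
reduced nor homogeneous nor locally trivial along the `Z_i`; the point `q` may be a special
point of the `Z_i`. For a point `Z = {p}` the normal cone is the tangent cone (`init_point`).

The main point is that `-c/N` is a root of the Bernstein-Sato polynomials of `F` at the points of a
centre `Z` near a point `p` at which the projectivized normal cone of `F = 0` along `Z` is such a divisor;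
here `c` is the codimension of `Z` and `N` is the multiplicity of `F` along `Z` (`centre_root`). Outline of
the proof. Let `y = (x, z)` be formal coordinates at `p`, where the `x_1, …, x_c` are the coordinates which
vanish on `Z`. The functional equation `b(s) F ^ s = P(s) F ^ (s + 1)` is transported to differential
operators with formal power series coefficients in these coordinates (`transport`); such an operator
is the sum of an operator which preserves the order along `Z` and of operators of the form
`∂_{x_l} u_l` (`decomp`). So the part of degree `N s` in `x` of the functional equation at `z = 0` says
that `b(s) G ^ s` is a sum of derivatives, with respect to the `x_l`, of elements of degree `N s + 1` of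
`ℂ[s][x, 1/G] G ^ s`, where `G = initZ Z F` is the equation of the fibre of the normal cone (`extS`). Let
`b(-c/N) ≠ 0`. For `s = -c/N` it follows that the twisted form `G ^ (-c/N) ω` on the complement of the
divisor `G = 0` of `ℙ^(c-1)` is the differential of a form with poles. By the trick of Cayley, twisted
forms with poles along the components `g_t = 0`, `t = 0, …, r`, of the divisor become cohomology
classes of the twisted de Rham complex of the function `∑_t y_t g_t` in the variables `x_j` and `y_t`,
whose symbol complex is the Koszul complex on the `c + r` elements `∑_t y_t ∂_j g_t` and `y_t g_t`,
`t ≥ 1`. By the normal crossings these elements generate an ideal which contains a power of the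
product of the ideals `(x_j)` and `(y_t)`. The first homology of the Koszul complex vanishes in the
bidegrees which occur (`H1_NC`). Therefore the order of the poles can be lowered (`reduce`), and at
the end one gets a linear vector field `v` with `v(g_t) = c_t g_t` for all `t`, where `c_0 = 0`, and a
relation between `div v` and the `c_t`; this leads to a contradiction if `g_0` has degree `≥ 2` (`alg`), or
if all the `g_t` are linear and `r ≥ c` (`alg2`). The roots `-1 / a t` come from general points of the
hypersurfaces `f t = 0` (`str_root`). -/

namespace Pool.Agent.Results.MP_6163c8_ag.SmoothCentres

open MvPolynomial Pool.Agent.H628R4.TP Pool.Agent.TH192.DT Pool.Agent.U841.SN Pool.Agent.U841.SC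

/-- **Every pole of the local topological zeta function is a root of the local Bernstein-Sato
polynomial, for germs resolved by the blow-up of smooth centres.** Let `b` satisfy
`b(s) F ^ s = P(s) F ^ (s + 1)`, `F = ∏ t, f t ^ a t`, where `P(s)` is a differential operator whose
coefficients are formal (for example convergent) power series at the point `q` (in the coordinates
`x - q`); an example is the local Bernstein-Sato polynomial of the germ of `F` at `q`. Then every pole of
the local topological zeta function of `F` at `q` (computed on the blow-up of the centres near `q`, with
arbitrary integers in the place of the Euler characteristics; only the strict transforms of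
hypersurfaces through `q` contribute) is a root of `b`. -/
theorem result {n : ℕ} {T I : Type} [Fintype T] [Fintype I] (f : T → MvPolynomial (Fin n) ℂ)
    (hsq : ∀ t, Squarefree (f t)) (hcop : ∀ s t, s ≠ t → IsRelPrime (f s) (f t)) (a : T → ℕ)
    (ha : ∀ t, 0 < a t) (q : Fin n → ℂ) (ν N : I → ℕ)
    (hZ : ∀ i, CentreNear (prodPow f a) q (ν i) (N i))
    (b : Polynomial ℂ) (hb : IsLocalBFunction (shiftP q (prodPow f a)) b)
    (χ : Finset (I ⊕ T) → ℤ) (hχ : ∀ J, χ J ≠ 0 → ∀ t, Sum.inr t ∈ J → eval q (f t) = 0)
    (s₀ : ℂ) (hs : (topZ (nuL ν T) (mulL N a) χ).denom.eval s₀ = 0) : b.eval s₀ = 0 :=
  loc_topZ hsq hcop ha ν N q hZ b hb χ hχ s₀ hs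

end Pool.Agent.Results.MP_6163c8_ag.SmoothCentres
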